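import Pool.Agent.H33.HH.TD

/-!
# Central values of all ray class characters, rows FDS and TSD
-/

set_option autoImplicit false

open NumberField Complex Filter Topology MeasureTheory
open scoped ContDiff nonZeroDivisors

namespace Pool.Agent.H47.HH

open Pool.Agent.H33.HH Pool.Agent.H28.RC Pool.Agent.H37.CV

/-- FDS: fundamental discriminants are large. -/
theorem pf_FDS : T_FDS := by
  classical
  intro d hd
  refine ⟨?_, fun X hX => ?_⟩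
  · have h1 : 3 ≤ |d| := by
      by_contra h
      push Not at h
      have h2 : |d| ≤ 2 := by omega
      rw [abs_le] at h2
      obtain ⟨h3, h4⟩ := h2
      unfold IsFund at hd
      interval_cases d <;> simp_all
    have h2 : ((3 : ℤ) : ℝ) ≤ ((|d| : ℤ) : ℝ) := by exact_mod_cast h1
    rw [Int.cast_abs] at h2
    simpa using h2
  · unfold Fd'
    rw [Finset.mem_filter, Finset.mem_Icc, ← abs_le, Int.le_floor, Int.cast_abs]
    exact ⟨fun h => h.1, fun h => ⟨h, hd⟩⟩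

namespace TSD

theorem step (n : ℕ) (hn : 2 ≤ n) : (n : ℝ) ^ (-(5 / 4) : ℝ) ≤
    4 * (((n - 1 : ℕ) : ℝ) ^ (-(1 / 4) : ℝ) - (n : ℝ) ^ (-(1 / 4) : ℝ)) := by
  have hn0 : (0 : ℝ) < n := by exact_mod_cast (by omega : 0 < n)
  have hn2 : (2 : ℝ) ≤ n := by exact_mod_cast hn
  have hx : (1 : ℝ) / n ≤ 1 / 2 := one_div_le_one_div_of_le (by norm_num) hn2
  have hx0 : (0 : ℝ) < 1 / n := by positivity
  have h1 : (1 + -(1 / (n : ℝ))) ^ (1 / 4 : ℝ) ≤ 1 + 1 / 4 * -(1 / (n : ℝ)) :=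
    rpow_one_add_le_one_add_mul_self (by linarith) (by norm_num) (by norm_num)
  have h2 : (0 : ℝ) < 1 + -(1 / (n : ℝ)) := by linarith
  have h3 : ((n - 1 : ℕ) : ℝ) = n * (1 + -(1 / (n : ℝ))) := by
    rw [Nat.cast_sub (by omega)]
    field_simp
    push_cast
    ring
  have h4 : ((n - 1 : ℕ) : ℝ) ^ (-(1 / 4) : ℝ) =
      (n : ℝ) ^ (-(1 / 4) : ℝ) * (1 + -(1 / (n : ℝ))) ^ (-(1 / 4) : ℝ) := by
    rw [h3, Real.mul_rpow hn0.le h2.le]
  have h5 : 1 + 1 / (4 * (n : ℝ)) ≤ (1 + -(1 / (n : ℝ))) ^ (-(1 / 4) : ℝ) := by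
    rw [Real.rpow_neg h2.le, ← one_div, le_div_iff₀ (Real.rpow_pos_of_pos h2 _)]
    have h6 : 1 / (4 * (n : ℝ)) = 1 / 4 * (1 / (n : ℝ)) := by
      field_simp
    rw [h6]
    have h7 : (1 + 1 / 4 * (1 / (n : ℝ))) * (1 + 1 / 4 * -(1 / (n : ℝ))) ≤ 1 := by
      nlinarith
    refine le_trans (mul_le_mul_of_nonneg_left h1 (by positivity)) h7
  have h6 : (n : ℝ) ^ (-(5 / 4) : ℝ) = (n : ℝ) ^ (-(1 / 4) : ℝ) * (1 / n) := by
    rw [show (-(5 / 4) : ℝ) = -(1 / 4) + -1 by norm_num, Real.rpow_add hn0, Real.rpow_neg_one,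
      ← one_div (n : ℝ)]
  have h7 : (0 : ℝ) < (n : ℝ) ^ (-(1 / 4) : ℝ) := Real.rpow_pos_of_pos hn0 _
  rw [h4, h6]
  have h8 := mul_le_mul_of_nonneg_left h5 h7.le
  have h9 : (n : ℝ) ^ (-(1 / 4) : ℝ) * (1 + 1 / (4 * (n : ℝ))) =
      (n : ℝ) ^ (-(1 / 4) : ℝ) + (n : ℝ) ^ (-(1 / 4) : ℝ) * (1 / n) / 4 := by
    field_simp
  rw [h9] at h8
  linarith

theorem tele (M N : ℕ) (hM : 2 ≤ M) :
    ∑ n ∈ Finset.Ico M (M + N), (n : ℝ) ^ (-(5 / 4) : ℝ) ≤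
      4 * (((M - 1 : ℕ) : ℝ) ^ (-(1 / 4) : ℝ) - ((M + N - 1 : ℕ) : ℝ) ^ (-(1 / 4) : ℝ)) := by
  induction N with
  | zero => simp
  | succ N ih =>
    rw [← add_assoc, Finset.sum_Ico_succ_top (by omega)]
    have h1 := step (M + N) (by omega)
    have h2 : M + N + 1 - 1 = M + N := by omega
    rw [h2]
    linarith

theorem nat (T : Finset ℕ) (Y : ℝ) (hY : 1 ≤ Y) (hT : ∀ n ∈ T, Y < (n : ℝ)) :
    ∑ n ∈ T, (n : ℝ) ^ (-(5 / 4) : ℝ) ≤ 8 * Y ^ (-(1 / 4) : ℝ) := by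
  obtain ⟨M, hM⟩ : ∃ M : ℕ, M = ⌊Y⌋₊ := ⟨_, rfl⟩
  have hM1 : 1 ≤ M := by
    rw [hM]
    exact (Nat.one_le_floor_iff _).2 hY
  have hM1' : (1 : ℝ) ≤ M := by exact_mod_cast hM1
  have hMY : Y < M + 1 := by
    rw [hM]
    exact Nat.lt_floor_add_one Y
  have hsub : T ⊆ Finset.Ico (M + 1) (M + 1 + T.sup id) := by
    intro n hn
    rw [Finset.mem_Ico]
    have h1 : n ≤ T.sup id := Finset.le_sup (f := id) hn
    have h2 : M < n := by
      rw [hM]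
      exact (Nat.floor_lt (by linarith)).2 (hT n hn)
    omega
  have h1 : ∑ n ∈ T, (n : ℝ) ^ (-(5 / 4) : ℝ) ≤
      ∑ n ∈ Finset.Ico (M + 1) (M + 1 + T.sup id), (n : ℝ) ^ (-(5 / 4) : ℝ) :=
    Finset.sum_le_sum_of_subset_of_nonneg hsub fun n _ _ => Real.rpow_nonneg (Nat.cast_nonneg _) _
  have h2 := tele (M + 1) (T.sup id) (by omega)
  have h3 : (0 : ℝ) ≤ ((M + 1 + T.sup id - 1 : ℕ) : ℝ) ^ (-(1 / 4) : ℝ) :=
    Real.rpow_nonneg (Nat.cast_nonneg _) _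
  have h4 : M + 1 - 1 = M := by omega
  rw [h4] at h2
  have h5 : (M : ℝ) ^ (-(1 / 4) : ℝ) ≤ (Y / 2) ^ (-(1 / 4) : ℝ) :=
    Real.rpow_le_rpow_of_nonpos (by linarith) (by linarith) (by norm_num)
  have h6 : (Y / 2) ^ (-(1 / 4) : ℝ) ≤ 2 * Y ^ (-(1 / 4) : ℝ) := by
    rw [Real.div_rpow (by linarith) (by norm_num), div_eq_mul_inv, mul_comm,
      ← Real.rpow_neg (by norm_num)]
    refine mul_le_mul_of_nonneg_right ?_ (Real.rpow_nonneg (by linarith) _)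
    calc (2 : ℝ) ^ (-(-(1 / 4)) : ℝ) ≤ (2 : ℝ) ^ (1 : ℝ) :=
          Real.rpow_le_rpow_of_exponent_le (by norm_num) (by norm_num)
      _ = 2 := Real.rpow_one 2
  linarith

end TSD

/-- TSD: the sum over the large discriminants. -/
theorem pf_TSD : T_TSD := by
  classical
  refine ⟨16, by norm_num, fun S Y hY hS => ?_⟩
  have h1 : ∀ d : ℤ, |(d : ℝ)| = ((d.natAbs : ℕ) : ℝ) := fun d => by
    rw [Nat.cast_natAbs, Int.cast_abs]
  have h2 : ∑ d ∈ S, |(d : ℝ)| ^ (-(5 / 4) : ℝ) =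
      ∑ d ∈ S, (fun n : ℕ => (n : ℝ) ^ (-(5 / 4) : ℝ)) d.natAbs :=
    Finset.sum_congr rfl fun d _ => by rw [h1]
  have h2' := Finset.sum_comp (s := S) (fun n : ℕ => (n : ℝ) ^ (-(5 / 4) : ℝ)) Int.natAbs
  rw [h2, h2']
  have h3 : ∀ n ∈ S.image Int.natAbs, (S.filter fun d => d.natAbs = n).card •
      (fun n : ℕ => (n : ℝ) ^ (-(5 / 4) : ℝ)) n ≤ 2 * (n : ℝ) ^ (-(5 / 4) : ℝ) := by
    intro n _
    rw [nsmul_eq_mul]
    refine mul_le_mul_of_nonneg_right ?_ (Real.rpow_nonneg (Nat.cast_nonneg _) _)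
    have h4 : (S.filter fun d => d.natAbs = n) ⊆ {(n : ℤ), -(n : ℤ)} := by
      intro d hd
      rw [Finset.mem_filter] at hd
      rw [Finset.mem_insert, Finset.mem_singleton]
      omega
    have h5 : (S.filter fun d => d.natAbs = n).card ≤ 2 :=
      (Finset.card_le_card h4).trans Finset.card_le_two
    exact_mod_cast h5
  refine (Finset.sum_le_sum h3).trans ?_
  rw [← Finset.mul_sum]
  have h4 := TSD.nat (S.image Int.natAbs) Y hY (by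
    intro n hn
    rw [Finset.mem_image] at hn
    obtain ⟨d, hd, rfl⟩ := hn
    rw [← h1]
    exact hS d hd)
  linarith

end Pool.Agent.H47.HH
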