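import Pool.Agent.H37.HH.Targets4

/-!
# Central values of all ray class characters, row KAP: the kernel and the classes
-/

set_option autoImplicit false

open NumberField Complex Filter Topology MeasureTheory
open scoped ContDiff nonZeroDivisors

namespace Pool.Agent.H47.HH

open Pool.Agent.H33.HH Pool.Agent.H28.RC Pool.Agent.H37.CV

namespace KAP

variable {K : Type} [Field K] [NumberField K]

theorem mu_iff {γ : K} {a b : 𝓞 K} (ha : a ≠ 0)
    (h : γ * algebraMap (𝓞 K) K a = algebraMap (𝓞 K) K b) (J I : Ideal (𝓞 K)) :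
    Mu γ J I ↔ Ideal.span {b} * J = Ideal.span {a} * I := by
  unfold Mu
  have h1 : FractionalIdeal.spanSingleton (𝓞 K)⁰ (algebraMap (𝓞 K) K a) ≠ 0 := by
    rw [Ne, FractionalIdeal.spanSingleton_eq_zero_iff]
    intro h2
    exact ha ((map_eq_zero_iff _ (IsFractionRing.injective (𝓞 K) K)).1 h2)
  have h2 : FractionalIdeal.spanSingleton (𝓞 K)⁰ (algebraMap (𝓞 K) K a) *
      (FractionalIdeal.spanSingleton (𝓞 K)⁰ γ * (J : FractionalIdeal (𝓞 K)⁰ K)) =
      ((Ideal.span {b} * J : Ideal (𝓞 K)) : FractionalIdeal (𝓞 K)⁰ K) := by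
    rw [← mul_assoc, FractionalIdeal.spanSingleton_mul_spanSingleton, mul_comm (algebraMap _ _ a),
      h, FractionalIdeal.coeIdeal_mul, FractionalIdeal.coeIdeal_span_singleton]
  have h3 : FractionalIdeal.spanSingleton (𝓞 K)⁰ (algebraMap (𝓞 K) K a) *
      (I : FractionalIdeal (𝓞 K)⁰ K) =
      ((Ideal.span {a} * I : Ideal (𝓞 K)) : FractionalIdeal (𝓞 K)⁰ K) := by
    rw [FractionalIdeal.coeIdeal_mul, FractionalIdeal.coeIdeal_span_singleton]
  constructor
  · intro h4
    rw [h4, h3] at h2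
    exact (FractionalIdeal.coeIdeal_injective h2).symm
  · intro h4
    rw [h4, ← h3] at h2
    exact mul_left_cancel₀ h1 h2

theorem mem_of {d J : Ideal (𝓞 K)} (hJ : J ⊔ d = ⊤) {x : 𝓞 K}
    (h : Ideal.span {x} * J ≤ d) : x ∈ d := by
  obtain ⟨j, hj, e, he, hje⟩ := Submodule.mem_sup.1 ((Ideal.eq_top_iff_one _).1 hJ)
  have h1 : x = x * j + x * e := by rw [← mul_add, hje, mul_one]
  rw [h1]
  exact d.add_mem (h (Ideal.mul_mem_mul (Ideal.mem_span_singleton_self x) hj))
    (d.mul_mem_left _ he)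

theorem ex_iff {d I J : Ideal (𝓞 K)} {γ : K} {a b : 𝓞 K} (ha : a ≠ 0)
    (h : γ * algebraMap (𝓞 K) K a = algebraMap (𝓞 K) K b) (had : Ideal.span {a} ⊔ d = ⊤)
    (hJ : J ⊔ d = ⊤) (hI : Ideal.span {b} * J = Ideal.span {a} * I) :
    (∃ t, Mu (γ - 1) J (d * t)) ↔ b - a ∈ d := by
  have h' : (γ - 1) * algebraMap (𝓞 K) K a = algebraMap (𝓞 K) K (b - a) := by
    rw [sub_mul, h, one_mul, map_sub]
  constructor
  · rintro ⟨t, ht⟩
    rw [mu_iff ha h'] at ht
    refine mem_of hJ ?_
    rw [ht]
    exact (Ideal.mul_le_right (I := Ideal.span {a}) (J := d * t)).trans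
      (Ideal.mul_le_left (I := d) (J := t))
  · intro hba
    have h1 : Ideal.span {b - a} * J ≤ Ideal.span {a} * d := by
      rw [Ideal.mul_eq_inf_of_coprime had, le_inf_iff]
      constructor
      · rw [Ideal.span_singleton_mul_le_iff]
        intro j hj
        rw [sub_mul]
        refine Ideal.sub_mem _ ?_ ?_
        · have h2 : b * j ∈ Ideal.span {b} * J :=
            Ideal.mul_mem_mul (Ideal.mem_span_singleton_self b) hj
          rw [hI] at h2
          exact (Ideal.mul_le_left (I := Ideal.span {a}) (J := I)) h2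
        · exact Ideal.mul_mem_right _ _ (Ideal.mem_span_singleton_self a)
      · refine (Ideal.mul_le_left (I := Ideal.span {b - a}) (J := J)).trans ?_
        rw [Ideal.span_singleton_le_iff_mem]
        exact hba
    obtain ⟨t, ht⟩ := Ideal.dvd_iff_le.2 h1
    refine ⟨t, ?_⟩
    rw [mu_iff ha h', ht, mul_assoc]

theorem cop_of_le {A m d : Ideal (𝓞 K)} (h : A ⊔ m = ⊤) (hmd : m ≤ d) : A ⊔ d = ⊤ :=
  top_le_iff.1 (h.symm.le.trans (sup_le_sup_left hmd A))

end KAP

open KAP

/-- KAP: the kernel and the classes. -/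
theorem pf_KAP (hNRM : T_NRM) : T_KAP := by
  intro K _ _ _ m d I J hm hmd hI hJ hIm hJm
  have hJd := cop_of_le hJm hmd
  constructor
  · rintro ⟨a, b, ha, hb, ham, hbm, hab, hIJ⟩
    have had := cop_of_le ham hmd
    have hbd := cop_of_le hbm hmd
    have hinj := IsFractionRing.injective (𝓞 K) K
    have ha' : algebraMap (𝓞 K) K a ≠ 0 := by
      rw [Ne, map_eq_zero_iff _ hinj]
      exact ha
    have hb' : algebraMap (𝓞 K) K b ≠ 0 := by
      rw [Ne, map_eq_zero_iff _ hinj]
      exact hb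
    obtain ⟨g, hg⟩ : ∃ g : K, g = algebraMap (𝓞 K) K b / algebraMap (𝓞 K) K a := ⟨_, rfl⟩
    have hg0 : g ≠ 0 := by
      rw [hg]
      exact div_ne_zero hb' ha'
    have hga : g * algebraMap (𝓞 K) K a = algebraMap (𝓞 K) K b := by
      rw [hg, div_mul_cancel₀ _ ha']
    have hgu : ∀ u : (𝓞 K)ˣ, (algebraMap (𝓞 K) K u * g) * algebraMap (𝓞 K) K a =
        algebraMap (𝓞 K) K (u * b) := by
      intro u
      rw [mul_assoc, hga, map_mul]
    have hMg : Mu g J I := (mu_iff ha hga J I).2 hIJ.symm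
    unfold kap wn
    have hset : {γ : K | Mu γ J I ∧ ∃ t, Mu (γ - 1) J (d * t)} =
        (fun u : (𝓞 K)ˣ => algebraMap (𝓞 K) K u * g) '' {u : (𝓞 K)ˣ | (u : 𝓞 K) - 1 ∈ d} := by
      ext γ
      constructor
      · rintro ⟨h1, h2⟩
        -- the quotient is a unit
        have hJ0 : (J : FractionalIdeal (𝓞 K)⁰ K) ≠ 0 := by
          rw [Ne, FractionalIdeal.coeIdeal_eq_zero]
          exact hJ
        have h3 : FractionalIdeal.spanSingleton (𝓞 K)⁰ γ =
            FractionalIdeal.spanSingleton (𝓞 K)⁰ g := by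
          have h4 := h1.trans hMg.symm
          exact mul_right_cancel₀ hJ0 h4
        have h4 : γ ∈ FractionalIdeal.spanSingleton (𝓞 K)⁰ g := by
          rw [← h3]
          exact FractionalIdeal.mem_spanSingleton_self _ _
        have h5 : g ∈ FractionalIdeal.spanSingleton (𝓞 K)⁰ γ := by
          rw [h3]
          exact FractionalIdeal.mem_spanSingleton_self _ _
        obtain ⟨x, hx⟩ := (FractionalIdeal.mem_spanSingleton _).1 h4
        obtain ⟨y, hy⟩ := (FractionalIdeal.mem_spanSingleton _).1 h5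
        rw [Algebra.smul_def] at hx hy
        have hyx : y * x = 1 := by
          apply hinj
          rw [map_mul, map_one]
          have h6 : algebraMap (𝓞 K) K y * algebraMap (𝓞 K) K x * g = 1 * g := by
            rw [mul_assoc, hx, hy, one_mul]
          exact mul_right_cancel₀ hg0 h6
        have hxy : x * y = 1 := by rw [mul_comm, hyx]
        refine ⟨⟨x, y, hxy, hyx⟩, ?_, hx⟩
        change x - 1 ∈ d
        have h6 : γ * algebraMap (𝓞 K) K a = algebraMap (𝓞 K) K (x * b) := by
          rw [← hx, mul_assoc, hga, map_mul]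
        have h7 : Ideal.span {x * b} * J = Ideal.span {a} * I := (mu_iff ha h6 J I).1 h1
        have h8 := (ex_iff ha h6 had hJd h7).1 h2
        -- (x - 1) b ∈ d
        have h9 : (x - 1) * b ∈ d := by
          have h10 : (x - 1) * b = (x * b - a) + (a - b) := by ring
          rw [h10]
          exact d.add_mem h8 hab
        refine mem_of (J := Ideal.span {b}) hbd ?_
        rw [Ideal.span_singleton_mul_span_singleton, Ideal.span_singleton_le_iff_mem]
        exact h9
      · rintro ⟨u, hu, rfl⟩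
        have hu' : (u : 𝓞 K) - 1 ∈ d := hu
        have h1 : Ideal.span {(u : 𝓞 K) * b} * J = Ideal.span {a} * I := by
          rw [Ideal.span_singleton_mul_left_unit u.isUnit, hIJ]
        refine ⟨(mu_iff ha (hgu u) J I).2 h1, (ex_iff ha (hgu u) had hJd h1).2 ?_⟩
        have h2 : (u : 𝓞 K) * b - a = ((u : 𝓞 K) - 1) * b - (a - b) := by ring
        rw [h2]
        exact d.sub_mem (d.mul_mem_right _ hu') hab
    rw [hset]
    refine Set.ncard_image_of_injective _ fun u v huv => ?_
    have h1 : algebraMap (𝓞 K) K u = algebraMap (𝓞 K) K v := mul_right_cancel₀ hg0 huv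
    exact Units.ext (hinj h1)
  · intro hR
    unfold kap
    have hset : {γ : K | Mu γ J I ∧ ∃ t, Mu (γ - 1) J (d * t)} = ∅ := by
      rw [Set.eq_empty_iff_forall_notMem]
      rintro γ ⟨h1, h2⟩
      have hinj := IsFractionRing.injective (𝓞 K) K
      obtain ⟨j, hj, e, he, hje⟩ := Submodule.mem_sup.1 ((Ideal.eq_top_iff_one _).1 hJm)
      -- an element of `J` prime to `m`
      obtain ⟨a, haJ, ha0, ham⟩ : ∃ a ∈ J, a ≠ 0 ∧ Ideal.span {a} ⊔ m = ⊤ := by
        by_cases hj0 : j = 0
        · have hmt : m = ⊤ := by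
            rw [hj0, zero_add] at hje
            rw [Ideal.eq_top_iff_one, ← hje]
            exact he
          obtain ⟨a, haJ, ha0⟩ := Submodule.exists_mem_ne_zero_of_ne_bot hJ
          exact ⟨a, haJ, ha0, by rw [hmt, sup_top_eq]⟩
        · refine ⟨j, hj, hj0, ?_⟩
          rw [Ideal.eq_top_iff_one, ← hje]
          exact Ideal.add_mem _ (Ideal.mem_sup_left (Ideal.mem_span_singleton_self j))
            (Ideal.mem_sup_right he)
      -- `γ a` is in `I`
      obtain ⟨b, hbI, hb⟩ : ∃ b ∈ I, algebraMap (𝓞 K) K b = γ * algebraMap (𝓞 K) K a := by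
        have h3 : γ * algebraMap (𝓞 K) K a ∈ (I : FractionalIdeal (𝓞 K)⁰ K) := by
          have h4 : FractionalIdeal.spanSingleton (𝓞 K)⁰ γ * (J : FractionalIdeal (𝓞 K)⁰ K) =
            (I : FractionalIdeal (𝓞 K)⁰ K) := h1
          rw [← h4]
          exact FractionalIdeal.mul_mem_mul (FractionalIdeal.mem_spanSingleton_self _ _)
            ((FractionalIdeal.mem_coeIdeal _).2 ⟨a, haJ, rfl⟩)
        obtain ⟨b, hbI, hb⟩ := (FractionalIdeal.mem_coeIdeal _).1 h3
        exact ⟨b, hbI, hb⟩
      have h3 : Ideal.span {b} * J = Ideal.span {a} * I := (mu_iff ha0 hb.symm J I).1 h1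
      have hb0 : b ≠ 0 := by
        intro h4
        rw [h4, Set.singleton_zero, Ideal.span_zero, ← Ideal.zero_eq_bot, zero_mul] at h3
        rcases mul_eq_zero.1 h3.symm with h5 | h5
        · rw [Ideal.zero_eq_bot, Ideal.span_singleton_eq_bot] at h5
          exact ha0 h5
        · exact hI h5
      have had := cop_of_le ham hmd
      have h4 := (ex_iff ha0 hb.symm had hJd h3).1 h2
      have hprod : Ideal.span {a} * I ⊔ m = ⊤ := by
        rw [← Ideal.isCoprime_iff_sup_eq] at ham hIm ⊢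
        exact ham.mul_left hIm
      refine hR ⟨a, b, ha0, hb0, ham, ?_, ?_, h3.symm⟩
      · rw [← h3] at hprod
        exact top_le_iff.1 (hprod.symm.le.trans (sup_le_sup_right
          (Ideal.mul_le_left (I := Ideal.span {b}) (J := J)) m))
      · rw [← neg_sub]
        exact d.neg_mem h4
    rw [hset, Set.ncard_empty]

end Pool.Agent.H47.HH
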