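import Pool.Agent.H33.HH.TD

/-!
# Central values of all ray class characters, rows RLN and FAC
-/

set_option autoImplicit false

open NumberField Complex Filter Topology MeasureTheory
open scoped ContDiff nonZeroDivisors

namespace Pool.Agent.H47.HH

open Pool.Agent.H33.HH Pool.Agent.H28.RC Pool.Agent.H37.CV

/-- RLN: relations with the unit ideal. -/
theorem pf_RLN : T_RLN := by
  intro K _ _ m d n hm hmd hn hR
  obtain ⟨a, b, ha, hb, ham, hbm, hab, hIJ⟩ := hR
  rw [← Ideal.one_eq_top, mul_one] at hIJ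
  have hba : b ∈ Ideal.span {a} := by
    have h1 : b ∈ Ideal.span {a} * n := by
      rw [hIJ]
      exact Ideal.mem_span_singleton_self b
    exact (Ideal.mul_le_left (I := Ideal.span {a}) (J := n)) h1
  obtain ⟨ν, hν⟩ := Ideal.mem_span_singleton.1 hba
  refine ⟨ν, ?_, ?_⟩
  · have h1 : Ideal.span {a} * Ideal.span {ν} = Ideal.span {a} * n := by
      rw [hIJ, Ideal.span_singleton_mul_span_singleton, ← hν]
    have h2 : (Ideal.span {a} : Ideal (𝓞 K)) ≠ 0 := by
      rw [Ne, Ideal.zero_eq_bot, Ideal.span_singleton_eq_bot]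
      exact ha
    exact mul_left_cancel₀ h2 h1
  · have had : Ideal.span {a} ⊔ d = ⊤ := top_le_iff.1 (ham.symm.le.trans (sup_le_sup_left hmd _))
    obtain ⟨e, he, s, hs, hes⟩ := Submodule.mem_sup.1 ((Ideal.eq_top_iff_one _).1 had)
    obtain ⟨r, rfl⟩ := Ideal.mem_span_singleton.1 he
    have h1 : ν - 1 = -(r * (a - b)) + (ν - 1) * s := by
      rw [hν]
      linear_combination (ν - 1) * (-hes)
    rw [h1]
    exact d.add_mem (d.neg_mem (d.mul_mem_left _ hab)) (d.mul_mem_left _ hs)

/-- FAC: every ideal is the product of its smooth part and its part prime to the small primes. -/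
theorem pf_FAC : T_FAC := by
  intro K _ _ P f hf
  -- uniqueness
  have hcop : ∀ k q : Ideal (𝓞 K), Sm' P k → Cp P q → IsCoprime k q := by
    intro k q hk hq
    rw [Ideal.isCoprime_iff_sup_eq]
    by_contra hne
    obtain ⟨M, hM, hle⟩ := Ideal.exists_le_maximal _ hne
    have hkM : k ≤ M := le_sup_left.trans hle
    have hqM : q ≤ M := le_sup_right.trans hle
    have hM0 : M ≠ ⊥ := by
      rintro rfl
      exact hk.1 (le_bot_iff.1 hkM)
    have h1 := hk.2 ⟨M, hM.isPrime, hM0⟩ hkM
    have h2 := hq ⟨M, hM.isPrime, hM0⟩ hqM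
    linarith
  -- existence
  have hex : ∀ N : ℕ, ∀ f : Ideal (𝓞 K), f ≠ ⊥ → Ideal.absNorm f ≤ N →
      ∃ k q : Ideal (𝓞 K), Sm' P k ∧ q ≠ ⊥ ∧ Cp P q ∧ f = k * q := by
    intro N
    induction N with
    | zero =>
      intro f hf hN
      have h0 : Ideal.absNorm f = 0 := by omega
      exact absurd (Ideal.absNorm_eq_zero_iff.1 h0) hf
    | succ N ih =>
      intro f hf hN
      by_cases hp : ∃ p : PrI K, f ≤ p.1 ∧ np p ≤ P
      · obtain ⟨p, hfp, hpP⟩ := hp
        obtain ⟨f', hf'⟩ := Ideal.dvd_iff_le.2 hfp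
        have hf'0 : f' ≠ ⊥ := by
          rintro rfl
          rw [Ideal.mul_bot] at hf'
          exact hf hf'
        have hp1 : 1 < Ideal.absNorm p.1 := by
          have h1 : Ideal.absNorm p.1 ≠ 0 := by
            rw [Ne, Ideal.absNorm_eq_zero_iff]
            exact p.2.2
          have h2 : Ideal.absNorm p.1 ≠ 1 := by
            rw [Ne, Ideal.absNorm_eq_one_iff]
            exact p.2.1.ne_top
          omega
        have hlt : Ideal.absNorm f' ≤ N := by
          have h1 : Ideal.absNorm f = Ideal.absNorm p.1 * Ideal.absNorm f' := by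
            rw [hf', map_mul]
          have h2 : Ideal.absNorm f' ≠ 0 := by
            rw [Ne, Ideal.absNorm_eq_zero_iff]
            exact hf'0
          have h3 : 2 * Ideal.absNorm f' ≤ Ideal.absNorm p.1 * Ideal.absNorm f' :=
            Nat.mul_le_mul_right _ hp1
          omega
        obtain ⟨k, q, hk, hq0, hq, hkq⟩ := ih f' hf'0 hlt
        refine ⟨p.1 * k, q, ⟨?_, ?_⟩, hq0, hq, ?_⟩
        · exact mul_ne_zero (M₀ := Ideal (𝓞 K)) p.2.2 hk.1
        · intro p' hp'
          rcases p'.2.1.mul_le.1 hp' with h1 | h1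
          · have h2 : p.1 = p'.1 := by
              have hmax : p.1.IsMaximal := p.2.1.isMaximal p.2.2
              exact hmax.eq_of_le p'.2.1.ne_top h1
            have h3 : p = p' := Subtype.ext h2
            rw [← h3]
            exact hpP
          · exact hk.2 p' h1
        · rw [hf', hkq, mul_assoc]
      · refine ⟨⊤, f, ⟨?_, ?_⟩, hf, ?_, ?_⟩
        · exact top_ne_bot
        · intro p hp'
          exact absurd (top_le_iff.1 hp') p.2.1.ne_top
        · intro p hfp
          by_contra h1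
          exact hp ⟨p, hfp, not_lt.1 h1⟩
        · rw [← Ideal.one_eq_top, one_mul]
  obtain ⟨k, q, hk, hq0, hq, hkq⟩ := hex (Ideal.absNorm f) f hf le_rfl
  refine ⟨(k, q), ⟨hk, hq0, hq, hkq⟩, ?_⟩
  rintro ⟨k', q'⟩ ⟨hk', hq0', hq', hkq'⟩
  have hkk : k = k' := by
    refine dvd_antisymm ?_ ?_
    · have h1 : k ∣ k' * q' := by
        rw [← hkq', hkq]
        exact dvd_mul_right k q
      exact (hcop k q' hk hq').dvd_of_dvd_mul_right h1
    · have h1 : k' ∣ k * q := by
        rw [← hkq, hkq']
        exact dvd_mul_right k' q'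
      exact (hcop k' q hk' hq).dvd_of_dvd_mul_right h1
  subst hkk
  have hqq : q = q' := by
    have h1 : k * q = k * q' := hkq.symm.trans hkq'
    exact mul_left_cancel₀ hk.1 h1
  rw [hqq]

end Pool.Agent.H47.HH
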