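import Pool.Agent.H33.HH.TD
import Pool.Agent.H81.CV.GL

/-!
# Central values of all ray class characters, row SMK: the sum over the smooth ideals
-/

set_option autoImplicit false

open NumberField Complex Filter Topology MeasureTheory
open scoped ContDiff nonZeroDivisors

namespace Pool.Agent.H47.HH

open Pool.Agent.H33.HH Pool.Agent.H28.RC Pool.Agent.H37.CV

namespace SMK

variable {K : Type} [Field K] [NumberField K]

/-- all the prime factors are in `X` -/
def Ov (X : Finset (PrI K)) (k : Ideal (𝓞 K)) : Prop := k ≠ ⊥ ∧ ∀ p : PrI K, k ≤ p.1 → p ∈ X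

theorem split [DecidableEq (PrI K)] (X : Finset (PrI K)) (p : PrI K) (k : Ideal (𝓞 K))
    (hk : Ov (insert p X) k) : ∃ (v : ℕ) (k' : Ideal (𝓞 K)), Ov X k' ∧ k = p.1 ^ v * k' := by
  have hk0 : k ≠ 0 := hk.1
  obtain ⟨v, k', hnd, hkk⟩ := WfDvdMonoid.max_power_factor' hk0
    (fun h => p.2.1.ne_top (Ideal.isUnit_iff.1 h) : ¬ IsUnit p.1)
  refine ⟨v, k', ⟨?_, fun q hq => ?_⟩, hkk⟩
  · rintro rfl
    rw [Ideal.mul_bot] at hkk
    exact hk.1 hkk
  · have h1 : k ≤ q.1 := by
      rw [hkk]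
      exact (Ideal.mul_le_right (I := p.1 ^ v) (J := k')).trans hq
    have h2 := hk.2 q h1
    rw [Finset.mem_insert] at h2
    rcases h2 with h2 | h2
    · exfalso
      rw [h2] at hq
      exact hnd (Ideal.dvd_iff_le.2 hq)
    · exact h2

theorem two_le (p : PrI K) : (2 : ℝ) ≤ np p := by
  have h1 : Ideal.absNorm p.1 ≠ 0 := by
    rw [Ne, Ideal.absNorm_eq_zero_iff]
    exact p.2.2
  have h2 : Ideal.absNorm p.1 ≠ 1 := by
    rw [Ne, Ideal.absNorm_eq_one_iff]
    exact p.2.1.ne_top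
  have h3 : 2 ≤ Ideal.absNorm p.1 := by omega
  unfold np nm
  exact_mod_cast h3

theorem sumX (X : Finset (PrI K)) : Summable fun k : {k : Ideal (𝓞 K) // Ov X k} => (nm k.1)⁻¹ := by
  classical
  induction X using Finset.induction_on with
  | empty =>
    have h1 : ∀ k : {k : Ideal (𝓞 K) // Ov (∅ : Finset (PrI K)) k}, k.1 = ⊤ := by
      intro k
      by_contra hne
      obtain ⟨M, hM, hle⟩ := Ideal.exists_le_maximal _ hne
      have hM0 : M ≠ ⊥ := by
        rintro rfl
        exact k.2.1 (le_bot_iff.1 hle)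
      exact absurd (k.2.2 ⟨M, hM.isPrime, hM0⟩ hle) (Finset.notMem_empty _)
    haveI : Subsingleton {k : Ideal (𝓞 K) // Ov (∅ : Finset (PrI K)) k} :=
      ⟨fun a b => Subtype.ext ((h1 a).trans (h1 b).symm)⟩
    haveI : Finite {k : Ideal (𝓞 K) // Ov (∅ : Finset (PrI K)) k} := Finite.of_subsingleton
    exact Summable.of_finite
  | insert p X hp ih =>
    have h2 := two_le p
    have hgeo : Summable fun v : ℕ => ((np p)⁻¹) ^ v := by
      refine summable_geometric_of_lt_one (inv_nonneg.2 (by linarith)) ?_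
      rw [inv_lt_one₀ (by linarith)]
      linarith
    have hprod : Summable fun q : ℕ × {k : Ideal (𝓞 K) // Ov X k} =>
        ((np p)⁻¹) ^ q.1 * (nm q.2.1)⁻¹ :=
      Summable.mul_of_nonneg hgeo ih (fun v => by positivity) (fun k => by
        change 0 ≤ (nm k.1)⁻¹
        unfold nm
        positivity)
    choose v k' hk' hkk using fun k : {k : Ideal (𝓞 K) // Ov (insert p X) k} =>
      split X p k.1 k.2
    obtain ⟨s, hs⟩ : ∃ s : {k : Ideal (𝓞 K) // Ov (insert p X) k} →
        ℕ × {k : Ideal (𝓞 K) // Ov X k}, ∀ k, s k = (v k, ⟨k' k, hk' k⟩) :=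
      ⟨fun k => (v k, ⟨k' k, hk' k⟩), fun _ => rfl⟩
    have hinj : Function.Injective s := by
      intro a b hab
      rw [hs, hs, Prod.mk.injEq, Subtype.mk.injEq] at hab
      refine Subtype.ext ?_
      rw [hkk a, hkk b, hab.1, hab.2]
    have h3 := hprod.comp_injective hinj
    refine h3.congr fun k => ?_
    change ((np p)⁻¹) ^ (s k).1 * (nm (s k).2.1)⁻¹ = (nm k.1)⁻¹
    rw [hs]
    change ((np p)⁻¹) ^ (v k) * (nm (k' k))⁻¹ = (nm k.1)⁻¹
    rw [hkk k]
    unfold np nm
    rw [map_mul, map_pow, Nat.cast_mul, Nat.cast_pow, mul_inv, inv_pow]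

end SMK

/-- SMK: the sum over the smooth ideals. -/
theorem pf_SMK : T_SMK := by
  intro K _ _ P
  have h1 := SMK.sumX (K := K) (PM K P)
  have hiff : ∀ k : Ideal (𝓞 K), Sm' P k ↔ SMK.Ov (PM K P) k := by
    intro k
    unfold Sm' SMK.Ov
    simp only [Pool.Agent.H81.CV.mem_PM]
  exact ((Equiv.subtypeEquivRight hiff).summable_iff
    (f := fun k : {k : Ideal (𝓞 K) // SMK.Ov (PM K P) k} => (nm k.1)⁻¹)).2 h1

end Pool.Agent.H47.HH
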