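import Pool.Agent.H37.HH.Targets4
import Pool.Agent.H94.CV.HU

/-!
# Central values of all ray class characters, row UCW: the units
-/

set_option autoImplicit false

open NumberField Complex Filter Topology MeasureTheory
open scoped ContDiff nonZeroDivisors

namespace Pool.Agent.H47.HH

open Pool.Agent.H33.HH Pool.Agent.H28.RC Pool.Agent.H37.CV

/-- UCW: the units. -/
theorem pf_UCW (hNRM : T_NRM) : T_UCW := by
  intro K _ _ _ d
  obtain ⟨_, _, hfin, hem, hnorm, _, _⟩ := hNRM K
  haveI := hfin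
  obtain ⟨f, hf⟩ : ∃ f : (𝓞 K)ˣ →* (𝓞 K ⧸ d)ˣ,
      f = Units.map ((Ideal.Quotient.mk d : 𝓞 K →+* 𝓞 K ⧸ d) : 𝓞 K →* 𝓞 K ⧸ d) := ⟨_, rfl⟩
  have hmem : ∀ u : (𝓞 K)ˣ, u ∈ f.ker ↔ (u : 𝓞 K) - 1 ∈ d := by
    intro u
    rw [MonoidHom.mem_ker, Units.ext_iff, hf, ← Ideal.Quotient.eq, map_one]
    rfl
  have hker : wn d = Nat.card f.ker := by
    unfold wn
    rw [← Nat.card_coe_set_eq]
    exact Nat.card_congr (Equiv.subtypeEquivRight fun u => (hmem u).symm)
  have hran : uc d = Nat.card f.range := by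
    rw [Pool.Agent.H94.CV.HU.uc_eq, hf]
    rfl
  have hprod : uc d * wn d = Nat.card (𝓞 K)ˣ := by
    rw [hker, hran, ← Subgroup.index_ker, mul_comm]
    exact Subgroup.card_mul_index f.ker
  have hpos : 0 < Nat.card (𝓞 K)ˣ := Nat.card_pos
  have huc : 0 < uc d := by
    rcases Nat.eq_zero_or_pos (uc d) with h | h
    · rw [h, zero_mul] at hprod
      omega
    · exact h
  have hwn : 1 ≤ wn d := by
    rcases Nat.eq_zero_or_pos (wn d) with h | h
    · rw [h, mul_zero] at hprod
      omega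
    · exact h
  refine ⟨huc, ?_, hwn, fun h4 => ?_⟩
  · unfold wu
    exact_mod_cast hprod
  · unfold wn
    rw [Set.ncard_eq_one]
    refine ⟨1, Set.eq_singleton_iff_unique_mem.2 ⟨?_, fun u hu => ?_⟩⟩
    · change ((1 : (𝓞 K)ˣ) : 𝓞 K) - 1 ∈ d
      rw [Units.val_one, sub_self]
      exact d.zero_mem
    · by_contra hne
      have hu' : (u : 𝓞 K) - 1 ∈ d := hu
      obtain ⟨x, hx⟩ : ∃ x : 𝓞 K, x = (u : 𝓞 K) - 1 := ⟨_, rfl⟩
      rw [← hx] at hu'
      have hx0 : x ≠ 0 := by
        rw [hx, sub_ne_zero]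
        intro h
        exact hne (Units.ext h)
      have h1 : Ideal.absNorm d ∣ Ideal.absNorm (Ideal.span {x}) :=
        Ideal.absNorm_dvd_absNorm_of_le (by
          rw [Ideal.span_singleton_le_iff_mem]
          exact hu')
      have h2 : Ideal.absNorm (Ideal.span {x}) = (Algebra.norm ℤ x).natAbs :=
        Ideal.absNorm_span_singleton x
      have h3 : (Algebra.norm ℤ x).natAbs ≠ 0 := by
        rw [Ne, Int.natAbs_eq_zero]
        exact Algebra.norm_ne_zero_iff.2 hx0
      have h4' : Ideal.absNorm d ≤ (Algebra.norm ℤ x).natAbs := by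
        rw [h2] at h1
        exact Nat.le_of_dvd (Nat.pos_of_ne_zero h3) h1
      have h5 := hnorm (x : K)
      have h6 : Algebra.norm ℚ (x : K) = (Algebra.norm ℤ x : ℚ) :=
        (Algebra.coe_norm_int x).symm
      have h7 : ‖em K (x : K)‖ ≤ 2 := by
        have h8 : (x : K) = ((u : 𝓞 K) : K) - 1 := by
          rw [hx]
          rfl
        rw [h8, map_sub, map_one]
        refine (norm_sub_le _ _).trans ?_
        rw [hem u, norm_one]
        norm_num
      have h8 : ((Algebra.norm ℤ x).natAbs : ℝ) = ‖em K (x : K)‖ ^ 2 := by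
        rw [h5, h6]
        push_cast
        rw [Nat.cast_natAbs]
        push_cast
        rfl
      have h9 : nm d ≤ ‖em K (x : K)‖ ^ 2 := by
        rw [← h8]
        unfold nm
        exact_mod_cast h4'
      have h10 : ‖em K (x : K)‖ ^ 2 ≤ 4 := by
        have := norm_nonneg (em K (x : K))
        nlinarith
      linarith

end Pool.Agent.H47.HH
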